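import Pool.Agent.Q61.LogFund

set_option autoImplicit false

open MeasureTheory InnerProductSpace Laplacian Topology Filter Set
open scoped ContDiff

namespace Pool.Agent.Results.MP_ad2fa1_an.NonradialAllN

/-- `f(t) = e^{2t} p(e^t)` -/
noncomputable def fOf (p : ℝ → ℝ) (t : ℝ) : ℝ := Real.exp (2 * t) * p (Real.exp t)

/-- `g(u) = q(e^u)` -/
noncomputable def gOf (q : ℝ → ℝ) (u : ℝ) : ℝ := q (Real.exp u)

/-- The set of `M > 0` with `∫_0^∞ f(t) g(-Mt) dt < ∞`. -/
def convSet (f g : ℝ → ℝ) : Set ℝ :=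
  {M | 0 < M ∧ IntegrableOn (fun t => f t * g (-M * t)) (Ioi 0)}

/-- `G_0(u) = ∫_{-∞}^u g`. -/
noncomputable def G0 (g : ℝ → ℝ) (u : ℝ) : ℝ := ∫ t in Iic u, g t

/-- The hypotheses (H1)-(H8) for `f` and `g`. -/
structure Hyps (f g : ℝ → ℝ) : Prop where
  h1f : ContDiff ℝ 1 f
  h1g : ContDiff ℝ 1 g
  h1i : IntegrableOn (fun t => |t * f t|) (Iic 0)
  h1b : ∃ C : ℝ, ∀ u, |g u| + |deriv g u| ≤ C
  h2a : ∀ t, 0 < f t
  h2b : Tendsto f atTop atTop
  h2c : g 0 = 0
  h2d : ∀ u, u < 0 → 0 < g u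
  h3 : ∀ t, 0 ≤ deriv f t
  h4 : ∃ M : ℝ, 0 < M ∧ (∀ u, u < -M → 0 < deriv g u) ∧
    IntegrableOn (fun t => f t * g (-M * t)) (Ioi 0)
  h5a : ¬ IntegrableOn (fun t => f t * g (-(sInf (convSet f g)) * t)) (Ioi 0)
  h5b : ∀ c : ℝ, 0 < c → ∃ κ : ℝ, 0 < κ ∧ ∀ t : ℝ, 0 < t → κ ≤ f (t - c) / f t
  h6 : ∀ u, IntegrableOn g (Iic u)
  h67 : ∃ f1 g1 : ℝ, Tendsto (fun t => deriv f t / f t) atTop (𝓝 f1) ∧
    Tendsto (fun u => G0 g u / g u) atBot (𝓝 g1) ∧
    (∀ t, f1 ≤ deriv f t / f t) ∧ (∀ u, u < 0 → g1 ≤ G0 g u / g u)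
  h8 : ∃ δ : ℝ, 0 < δ ∧ ∀ u ∈ Icc (-δ) 0, deriv g u ≤ 0

/-- `u` is a negative solution of `Δu + p(|x|) q(e^u) = 4πN δ` in the sense of distributions on
the plane `ℝ² = ℂ`, smooth away from the origin. -/
structure NegSol (N : ℝ) (p q : ℝ → ℝ) (u : ℂ → ℝ) : Prop where
  smooth : ContDiffOn ℝ ∞ u {0}ᶜ
  locInt : LocallyIntegrable u
  locInt' : LocallyIntegrable (fun z => p ‖z‖ * q (Real.exp (u z)))
  eqn : ∀ φ : ℂ → ℝ, ContDiff ℝ ∞ φ → HasCompactSupport φ →
    (∫ z, u z * (Δ φ) z) + ∫ z, p ‖z‖ * q (Real.exp (u z)) * φ z = 4 * Real.pi * N * φ 0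
  neg : ∀ z, z ≠ 0 → u z < 0

/-- `u` is radially symmetric about the point `a` (as a function away from the origin). -/
def RadialAbout (a : ℂ) (u : ℂ → ℝ) : Prop :=
  ∀ z w : ℂ, z ≠ 0 → w ≠ 0 → ‖z - a‖ = ‖w - a‖ → u z = u w

/-! ### the nonlinearity -/

/-- the density of the smooth step -/
noncomputable def sd (t : ℝ) : ℝ := 6 * max (t * (1 - t)) 0

theorem sd_cont : Continuous sd := by unfold sd; fun_prop

theorem sd_nonneg (t : ℝ) : 0 ≤ sd t := by unfold sd; positivity

theorem sd_zero_of_le {t : ℝ} (h : t ≤ 0) : sd t = 0 := by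
  unfold sd
  rw [max_eq_right (by nlinarith)]; ring

theorem sd_zero_of_ge {t : ℝ} (h : 1 ≤ t) : sd t = 0 := by
  unfold sd
  rw [max_eq_right (by nlinarith)]; ring

/-- the step -/
noncomputable def st (x : ℝ) : ℝ := ∫ t in (0:ℝ)..x, sd t

theorem st_deriv (x : ℝ) : HasDerivAt st (sd x) x :=
  intervalIntegral.integral_hasDerivAt_right (sd_cont.intervalIntegrable _ _)
    (sd_cont.stronglyMeasurableAtFilter _ _) sd_cont.continuousAt

theorem st_of_le {x : ℝ} (h : x ≤ 0) : st x = 0 := by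
  unfold st
  have : ∫ t in (0:ℝ)..x, sd t = ∫ t in (0:ℝ)..x, (0:ℝ) := by
    apply intervalIntegral.integral_congr
    intro t ht
    rw [uIcc_of_ge h] at ht
    exact sd_zero_of_le ht.2
  rw [this]; simp

theorem st_one : st 1 = 1 := by
  unfold st
  have h1 : ∫ t in (0:ℝ)..1, sd t = ∫ t in (0:ℝ)..1, (6 * t - 6 * t ^ 2) := by
    apply intervalIntegral.integral_congr
    intro t ht
    rw [uIcc_of_le zero_le_one] at ht
    unfold sd
    simp only
    rw [max_eq_left (mul_nonneg ht.1 (by linarith [ht.2]))]; ring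
  rw [h1, intervalIntegral.integral_sub
    (Continuous.intervalIntegrable (by fun_prop) _ _)
    (Continuous.intervalIntegrable (by fun_prop) _ _),
    intervalIntegral.integral_const_mul, intervalIntegral.integral_const_mul, integral_id,
    integral_pow]
  norm_num

theorem st_add (x y : ℝ) : st y = st x + ∫ t in x..y, sd t := by
  unfold st
  rw [intervalIntegral.integral_add_adjacent_intervals (sd_cont.intervalIntegrable _ _)
    (sd_cont.intervalIntegrable _ _)]

theorem st_mono : Monotone st := by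
  intro x y h
  rw [st_add x y]
  have : 0 ≤ ∫ t in x..y, sd t := intervalIntegral.integral_nonneg h (fun t _ => sd_nonneg t)
  linarith

theorem st_of_ge {x : ℝ} (h : 1 ≤ x) : st x = 1 := by
  rw [st_add 1 x, st_one]
  have : ∫ t in (1:ℝ)..x, sd t = ∫ t in (1:ℝ)..x, (0:ℝ) := by
    apply intervalIntegral.integral_congr
    intro t ht
    rw [uIcc_of_le h] at ht
    exact sd_zero_of_ge ht.1
  rw [this]; simp

theorem st_nonneg (x : ℝ) : 0 ≤ st x := by
  rcases le_total x 0 with h | h
  · rw [st_of_le h]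
  · have := st_mono h
    rwa [st_of_le le_rfl] at this

theorem st_le_one (x : ℝ) : st x ≤ 1 := by
  rcases le_total x 1 with h | h
  · have := st_mono h
    rwa [st_one] at this
  · rw [st_of_ge h]

/-- for `x < 1` the step is below `1` -/
theorem st_lt_one {x : ℝ} (h : x < 1) : st x < 1 := by
  have hy : max x (1/2) < 1 := max_lt h (by norm_num)
  have h1 := st_mono (le_max_left x (1/2))
  refine lt_of_le_of_lt h1 ?_
  set y := max x (1/2) with hydef
  have hyh : 1/2 ≤ y := le_max_right _ _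
  have h2 := st_add y 1
  rw [st_one] at h2
  have h3 : 0 < ∫ t in y..1, sd t := by
    apply intervalIntegral.intervalIntegral_pos_of_pos_on (sd_cont.intervalIntegrable _ _) _ hy
    intro t ht
    have h4 : 0 < t * (1 - t) := mul_pos (by linarith [ht.1]) (by linarith [ht.2])
    unfold sd
    rw [max_eq_left h4.le]
    linarith
  linarith

/-- the cut-off factor -/
noncomputable def eta (s : ℝ) : ℝ := 1 - st (2 * s - 1)

theorem eta_deriv (s : ℝ) : HasDerivAt eta (-(2 * sd (2 * s - 1))) s := by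
  have h1 : HasDerivAt (fun s : ℝ => 2 * s - 1) 2 s := by
    simpa using ((hasDerivAt_id s).const_mul 2).sub_const 1
  have h2 := ((st_deriv (2 * s - 1)).comp s h1).const_sub 1
  refine h2.congr_deriv ?_
  ring

/-- the nonlinearity `q` -/
noncomputable def qq (s : ℝ) : ℝ := s * eta s

theorem qq_deriv (s : ℝ) : HasDerivAt qq (eta s - s * (2 * sd (2 * s - 1))) s := by
  have h := (hasDerivAt_id s).mul (eta_deriv s)
  refine h.congr_deriv ?_
  simp; ring

theorem eta_of_le {s : ℝ} (h : s ≤ 1/2) : eta s = 1 := by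
  unfold eta; rw [st_of_le (by linarith)]; ring

theorem eta_of_ge {s : ℝ} (h : 1 ≤ s) : eta s = 0 := by
  unfold eta; rw [st_of_ge (by linarith)]; ring

theorem eta_nonneg (s : ℝ) : 0 ≤ eta s := by
  unfold eta; linarith [st_le_one (2 * s - 1)]

theorem eta_le_one (s : ℝ) : eta s ≤ 1 := by
  unfold eta; linarith [st_nonneg (2 * s - 1)]

theorem eta_pos {s : ℝ} (h : s < 1) : 0 < eta s := by
  unfold eta; linarith [st_lt_one (x := 2 * s - 1) (by linarith)]

theorem qq_of_le {s : ℝ} (h : s ≤ 1/2) : qq s = s := by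
  unfold qq; rw [eta_of_le h, mul_one]

theorem eta_cont : Continuous eta :=
  continuous_iff_continuousAt.2 fun s => (eta_deriv s).continuousAt

/-- derivative of `g` -/
noncomputable def gd (u : ℝ) : ℝ :=
  (eta (Real.exp u) - Real.exp u * (2 * sd (2 * Real.exp u - 1))) * Real.exp u

theorem g_deriv (u : ℝ) : HasDerivAt (gOf qq) (gd u) u :=
  (qq_deriv (Real.exp u)).comp u (Real.hasDerivAt_exp u)

theorem gd_cont : Continuous gd := by
  unfold gd
  have h1 := eta_cont.comp Real.continuous_exp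
  have h2 : Continuous (fun u => sd (2 * Real.exp u - 1)) :=
    sd_cont.comp ((Real.continuous_exp.const_mul 2).sub continuous_const)
  exact (h1.sub (Real.continuous_exp.mul (h2.const_mul 2))).mul Real.continuous_exp

theorem deriv_g : deriv (gOf qq) = gd := funext fun u => (g_deriv u).deriv

theorem g_contDiff : ContDiff ℝ 1 (gOf qq) := by
  rw [contDiff_one_iff_deriv]
  exact ⟨fun u => (g_deriv u).differentiableAt, by rw [deriv_g]; exact gd_cont⟩

theorem g_of_le {u : ℝ} (h : u ≤ -1) : gOf qq u = Real.exp u := by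
  unfold gOf
  apply qq_of_le
  have h1 : Real.exp u ≤ Real.exp (-1) := Real.exp_le_exp.2 h
  have h2 : Real.exp (-1) ≤ 1/2 := by
    rw [Real.exp_neg]
    have : (2:ℝ) ≤ Real.exp 1 := by linarith [Real.add_one_le_exp (1:ℝ)]
    rw [one_div]
    exact inv_anti₀ (by norm_num) this
  linarith

theorem gd_of_lt {u : ℝ} (h : u < -1) : gd u = Real.exp u := by
  have h1 : Real.exp u ≤ Real.exp (-1) := Real.exp_le_exp.2 h.le
  have h2 : Real.exp (-1) ≤ 1/2 := by
    rw [Real.exp_neg]
    have : (2:ℝ) ≤ Real.exp 1 := by linarith [Real.add_one_le_exp (1:ℝ)]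
    rw [one_div]
    exact inv_anti₀ (by norm_num) this
  unfold gd
  rw [eta_of_le (by linarith), sd_zero_of_le (by linarith)]
  ring

theorem g_nonneg (u : ℝ) : 0 ≤ gOf qq u := mul_nonneg (Real.exp_pos u).le (eta_nonneg _)

theorem g_le_exp (u : ℝ) : gOf qq u ≤ Real.exp u := by
  unfold gOf qq
  have := eta_le_one (Real.exp u)
  have h2 := Real.exp_pos u
  nlinarith

theorem g_of_ge {u : ℝ} (h : 0 ≤ u) : gOf qq u = 0 := by
  unfold gOf qq
  rw [eta_of_ge (Real.one_le_exp h), mul_zero]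

theorem gd_le_g (u : ℝ) : gd u ≤ gOf qq u := by
  unfold gd gOf qq
  have h1 := sd_nonneg (2 * Real.exp u - 1)
  have h2 := Real.exp_pos u
  have h3 : 0 ≤ Real.exp u * (2 * sd (2 * Real.exp u - 1)) * Real.exp u := by positivity
  nlinarith

theorem sd_le (t : ℝ) : sd t ≤ 2 := by
  unfold sd
  have : max (t * (1 - t)) 0 ≤ 1/4 := max_le (by nlinarith [sq_nonneg (t - 1/2)]) (by norm_num)
  linarith

theorem g_bound (u : ℝ) : |gOf qq u| + |gd u| ≤ 6 := by
  rcases le_total 0 u with h | h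
  · rw [g_of_ge h]
    have h1 : 1 ≤ Real.exp u := Real.one_le_exp h
    have : gd u = 0 := by
      unfold gd
      rw [eta_of_ge h1, sd_zero_of_ge (by linarith)]
      ring
    rw [this]; norm_num
  · have h1 : Real.exp u ≤ 1 := Real.exp_le_one_iff.2 h
    have h0 := Real.exp_pos u
    have h2 : |gOf qq u| ≤ 1 := by
      rw [abs_of_nonneg (g_nonneg u)]
      exact (g_le_exp u).trans h1
    have h3 : |gd u| ≤ 5 := by
      unfold gd
      rw [abs_mul, abs_of_pos h0]
      have h4 : |eta (Real.exp u) - Real.exp u * (2 * sd (2 * Real.exp u - 1))| ≤ 5 := by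
        rw [abs_le]
        have a1 := eta_nonneg (Real.exp u)
        have a2 := eta_le_one (Real.exp u)
        have a3 := sd_nonneg (2 * Real.exp u - 1)
        have a4 := sd_le (2 * Real.exp u - 1)
        constructor
        · nlinarith
        · nlinarith [mul_nonneg h0.le a3]
      calc _ ≤ 5 * Real.exp u := by gcongr
        _ ≤ 5 * 1 := by gcongr
        _ = 5 := by norm_num
    linarith

/-! ### the hypotheses -/

theorem f_const (P : ℝ) : fOf (fun _ => P) = fun t => Real.exp (2 * t) * P := rfl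

theorem f_deriv (P t : ℝ) : HasDerivAt (fOf (fun _ => P)) (2 * (Real.exp (2 * t) * P)) t := by
  rw [f_const]
  have h1 : HasDerivAt (fun t : ℝ => 2 * t) 2 t := by simpa using (hasDerivAt_id t).const_mul 2
  have := (h1.exp).mul_const P
  refine this.congr_deriv ?_
  ring

theorem int_iff (P : ℝ) (hP : 0 < P) (M : ℝ) (hM : 0 < M) :
    IntegrableOn (fun t => fOf (fun _ => P) t * gOf qq (-M * t)) (Ioi 0) ↔ 2 < M := by
  constructor
  · intro h
    by_contra hcon
    push Not at hcon
    set T : ℝ := 1 / M with hT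
    have hTpos : 0 < T := by positivity
    have h1 : IntegrableOn (fun t => fOf (fun _ => P) t * gOf qq (-M * t)) (Ioi T) :=
      h.mono_set (Ioi_subset_Ioi hTpos.le)
    have h2 : IntegrableOn (fun _ : ℝ => P) (Ioi T) := by
      apply Integrable.mono' h1 (by fun_prop)
      filter_upwards [ae_restrict_mem measurableSet_Ioi] with t ht
      have ht' : 1 ≤ M * t := by
        have : T < t := ht
        rw [hT, div_lt_iff₀ hM] at this
        linarith
      have htpos : 0 < t := lt_trans hTpos ht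
      rw [g_of_le (by linarith), f_const]
      simp only
      rw [mul_right_comm, ← Real.exp_add, Real.norm_of_nonneg hP.le]
      have : 1 ≤ Real.exp (2 * t + -M * t) := Real.one_le_exp (by nlinarith)
      nlinarith
    rw [integrableOn_const_iff] at h2
    simp at h2
    linarith
  · intro h
    have h1 : IntegrableOn (fun t : ℝ => P * Real.exp (-(M - 2) * t)) (Ioi 0) :=
      (integrableOn_exp_mul_Ioi (by linarith : -(M-2) < 0) 0).const_mul P
    refine Integrable.mono' h1 ?_ ?_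
    · apply Continuous.aestronglyMeasurable
      apply Continuous.mul
      · rw [f_const]; fun_prop
      · exact g_contDiff.continuous.comp (by fun_prop)
    · apply ae_of_all
      intro t
      rw [f_const]
      simp only
      rw [norm_mul, Real.norm_of_nonneg (by positivity), Real.norm_of_nonneg (g_nonneg _)]
      calc Real.exp (2 * t) * P * gOf qq (-M * t) ≤ Real.exp (2 * t) * P * Real.exp (-M * t) := by
            gcongr; exact g_le_exp _
        _ = P * Real.exp (-(M - 2) * t) := by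
            rw [mul_right_comm, ← Real.exp_add, mul_comm]; ring_nf

theorem convSet_eq (P : ℝ) (hP : 0 < P) :
    convSet (fOf (fun _ => P)) (gOf qq) = Ioi 2 := by
  ext M
  simp only [convSet, mem_ofPred_eq, mem_Ioi]
  constructor
  · rintro ⟨h1, h2⟩
    exact (int_iff P hP M h1).1 h2
  · intro h
    exact ⟨by linarith, (int_iff P hP M (by linarith)).2 h⟩

theorem g_intIic (u : ℝ) : IntegrableOn (gOf qq) (Iic u) := by
  refine Integrable.mono' (integrableOn_exp_Iic u) g_contDiff.continuous.aestronglyMeasurable ?_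
  apply ae_of_all
  intro t
  rw [Real.norm_of_nonneg (g_nonneg t)]
  exact g_le_exp t

theorem G0_of_le {u : ℝ} (h : u ≤ -1) : G0 (gOf qq) u = Real.exp u := by
  unfold G0
  rw [← integral_exp_Iic u]
  apply setIntegral_congr_fun measurableSet_Iic
  intro t ht
  exact g_of_le (le_trans ht h)

theorem G0_ge {u : ℝ} : gOf qq u ≤ G0 (gOf qq) u := by
  rcases le_total u (-1) with h | h
  · rw [G0_of_le h]; exact g_le_exp u
  · have h1 : G0 (gOf qq) u = G0 (gOf qq) (-1) + ∫ t in (-1:ℝ)..u, gOf qq t := by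
      unfold G0
      rw [← intervalIntegral.integral_Iic_sub_Iic (g_intIic (-1)) (g_intIic u)]
      ring
    have h2 : ∫ t in (-1:ℝ)..u, gd t = gOf qq u - gOf qq (-1) :=
      intervalIntegral.integral_eq_sub_of_hasDerivAt (fun t _ => g_deriv t)
        (gd_cont.intervalIntegrable _ _)
    have h3 : ∫ t in (-1:ℝ)..u, gd t ≤ ∫ t in (-1:ℝ)..u, gOf qq t :=
      intervalIntegral.integral_mono_on h (gd_cont.intervalIntegrable _ _)
        (g_contDiff.continuous.intervalIntegrable _ _) (fun t _ => gd_le_g t)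
    have h4 : gOf qq (-1) = G0 (gOf qq) (-1) := by rw [G0_of_le le_rfl, g_of_le le_rfl]
    linarith

theorem hyps (P : ℝ) (hP : 0 < P) : Hyps (fOf (fun _ => P)) (gOf qq) where
  h1f := by rw [f_const]; fun_prop
  h1g := g_contDiff
  h1i := by
    have h1 : IntegrableOn (fun t : ℝ => P * Real.exp (1 * t)) (Iic 0) :=
      (integrableOn_exp_mul_Iic (by norm_num) 0).const_mul P
    refine Integrable.mono' h1 ?_ ?_
    · apply Continuous.aestronglyMeasurable
      rw [f_const]
      fun_prop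
    · filter_upwards [ae_restrict_mem measurableSet_Iic] with t ht
      have ht' : t ≤ 0 := ht
      rw [f_const]
      simp only
      rw [norm_abs_eq_norm, norm_mul, norm_mul, Real.norm_of_nonneg hP.le,
        Real.norm_of_nonneg (Real.exp_pos _).le, Real.norm_of_nonpos ht']
      have h2 : -t ≤ Real.exp (-t) := by linarith [Real.add_one_le_exp (-t)]
      calc -t * (Real.exp (2 * t) * P) ≤ Real.exp (-t) * (Real.exp (2 * t) * P) := by gcongr
        _ = P * Real.exp (1 * t) := by
          rw [← mul_assoc, ← Real.exp_add, mul_comm]; ring_nf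
  h1b := ⟨6, fun u => by rw [deriv_g]; exact g_bound u⟩
  h2a := fun t => by rw [f_const]; positivity
  h2b := by
    rw [f_const]
    apply Tendsto.atTop_mul_const hP
    exact Real.tendsto_exp_atTop.comp (tendsto_id.const_mul_atTop (by norm_num))
  h2c := g_of_ge le_rfl
  h2d := fun u hu => mul_pos (Real.exp_pos u) (eta_pos (Real.exp_lt_one_iff.2 hu))
  h3 := fun t => by rw [(f_deriv P t).deriv]; positivity
  h4 := ⟨3, by norm_num, fun u hu => by
    rw [deriv_g, gd_of_lt (by linarith)]; exact Real.exp_pos u, (int_iff P hP 3 (by norm_num)).2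
      (by norm_num)⟩
  h5a := by
    rw [convSet_eq P hP, csInf_Ioi]
    intro h
    exact lt_irrefl _ ((int_iff P hP 2 (by norm_num)).1 h)
  h5b := by
    intro c _
    refine ⟨Real.exp (-(2 * c)), Real.exp_pos _, fun t _ => ?_⟩
    rw [f_const]
    simp only
    rw [mul_div_mul_right _ _ hP.ne', ← Real.exp_sub]
    apply Real.exp_le_exp.2
    linarith
  h6 := g_intIic
  h67 := by
    refine ⟨2, 1, ?_, ?_, ?_, ?_⟩
    · apply tendsto_const_nhds.congr
      intro t
      rw [(f_deriv P t).deriv, f_const]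
      field_simp
    · apply tendsto_const_nhds.congr'
      filter_upwards [eventually_le_atBot (-1)] with u hu
      rw [G0_of_le hu, g_of_le hu, div_self (Real.exp_pos u).ne']
    · intro t
      rw [(f_deriv P t).deriv, f_const]
      simp only
      rw [le_div_iff₀ (by positivity)]
    · intro u hu
      have hg : 0 < gOf qq u := mul_pos (Real.exp_pos u) (eta_pos (Real.exp_lt_one_iff.2 hu))
      rw [le_div_iff₀ hg, one_mul]
      exact G0_ge
  h8 := by
    refine ⟨1/8, by norm_num, fun u hu => ?_⟩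
    rw [deriv_g]
    have h1 : Real.exp u ≤ 1 := Real.exp_le_one_iff.2 hu.2
    have h2 : 3/4 ≤ Real.exp u := by linarith [Real.add_one_le_exp u, hu.1]
    set s := Real.exp u with hs
    have hx : (1/2 : ℝ) ≤ 2 * s - 1 := by linarith
    have hx1 : 2 * s - 1 ≤ 1 := by linarith
    have h3 : eta s ≤ s * (2 * sd (2 * s - 1)) := by
      have e1 : eta s = ∫ t in (2 * s - 1)..1, sd t := by
        unfold eta
        have := st_add (2 * s - 1) 1
        rw [st_one] at this
        linarith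
      have e2 : ∫ t in (2 * s - 1)..1, sd t ≤ ∫ t in (2 * s - 1)..1, sd (2 * s - 1) := by
        apply intervalIntegral.integral_mono_on hx1 (sd_cont.intervalIntegrable _ _)
          (continuous_const.intervalIntegrable _ _)
        intro t ht
        unfold sd
        rw [max_eq_left (mul_nonneg (by linarith [ht.1]) (by linarith [ht.2])),
          max_eq_left (mul_nonneg (by linarith) (by linarith))]
        nlinarith [ht.1, ht.2]
      rw [intervalIntegral.integral_const, smul_eq_mul] at e2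
      have e3 := sd_nonneg (2 * s - 1)
      nlinarith
    unfold gd
    rw [← hs]
    apply mul_nonpos_of_nonpos_of_nonneg
    · linarith
    · linarith

/-! ### the solution -/

/-- the holomorphic map -/
noncomputable def ww (N : ℕ) (z : ℂ) : ℂ := z ^ (N + 1) + 1

theorem ww_deriv (N : ℕ) (z : ℂ) : HasDerivAt (ww N) ((N + 1 : ℂ) * z ^ N) z := by
  unfold ww
  have := (hasDerivAt_pow (N + 1) z).add_const (1:ℂ)
  simpa using this

/-- smooth part -/
noncomputable def vv (N : ℕ) (z : ℂ) : ℝ := -Real.log 8 + (-4) * (1 / 2 * Real.log (‖ww N z‖ ^ 2 + 1))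

/-- the solution -/
noncomputable def uu (N : ℕ) (z : ℂ) : ℝ := 2 * N * Real.log ‖z‖ + vv N z

theorem ww_contDiff (N : ℕ) {n : WithTop ℕ∞} : ContDiff ℝ n (ww N) := by
  unfold ww
  exact (contDiff_id.pow _).add contDiff_const

theorem vv_contDiff (N : ℕ) {n : WithTop ℕ∞} : ContDiff ℝ n (vv N) := by
  unfold vv
  apply ContDiff.add contDiff_const
  apply ContDiff.mul contDiff_const
  exact (Q61.contDiff_logReg 1 one_pos).comp (ww_contDiff N)

theorem lap_vv (N : ℕ) (z : ℂ) :
    (Δ (vv N)) z = -(8 * (N + 1) ^ 2 * ‖z‖ ^ (2 * N) / (‖ww N z‖ ^ 2 + 1) ^ 2) := by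
  have hc1 : ContDiffAt ℝ 2 (fun z => 1 / 2 * Real.log (‖ww N z‖ ^ 2 + 1)) z :=
    ((Q61.contDiff_logReg 1 one_pos).comp (ww_contDiff N)).contDiffAt
  have h1 : (Δ (vv N)) z = (Δ (fun _ : ℂ => -Real.log 8)) z +
      (Δ (fun z => (-4) * (1 / 2 * Real.log (‖ww N z‖ ^ 2 + 1)))) z := by
    apply Q61.lap_add contDiffAt_const
    exact contDiffAt_const.mul hc1
  rw [h1, laplacian_const, Q61.lap_const_mul _ hc1]
  have h2 := Q61.lap_comp_holo (h := fun y : ℂ => 1 / 2 * Real.log (‖y‖ ^ 2 + 1)) (w := ww N)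
    (w' := fun z => (N + 1 : ℂ) * z ^ N) (z := z) (w'' := (N + 1 : ℂ) * (N * z ^ (N - 1)))
    (Eventually.of_forall (ww_deriv N)) ((hasDerivAt_pow N z).const_mul _)
    (Q61.contDiff_logReg 1 one_pos).contDiffAt
  rw [h2, Q61.lap_logReg 1 one_pos]
  have h3 : ‖((N : ℂ) + 1) * z ^ N‖ ^ 2 = (N + 1) ^ 2 * ‖z‖ ^ (2 * N) := by
    rw [norm_mul, norm_pow, mul_pow, ← pow_mul, mul_comm N 2]
    congr 2
    have : ((N : ℂ) + 1) = ((N + 1 : ℕ) : ℂ) := by push_cast; ring
    rw [this, Complex.norm_natCast]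
    push_cast; ring
  simp only [Pi.zero_apply] at *
  rw [h3]
  ring

theorem exp_uu (N : ℕ) (z : ℂ) (hz : z ≠ 0) :
    Real.exp (uu N z) = ‖z‖ ^ (2 * N) / (8 * (‖ww N z‖ ^ 2 + 1) ^ 2) := by
  have h0 : 0 < ‖z‖ := norm_pos_iff.2 hz
  have h1 : uu N z = Real.log (‖z‖ ^ (2 * N) / (8 * (‖ww N z‖ ^ 2 + 1) ^ 2)) := by
    rw [Real.log_div (by positivity) (by positivity), Real.log_mul (by norm_num) (by positivity),
      Real.log_pow, Real.log_pow, uu, vv]
    push_cast
    ring
  rw [h1, Real.exp_log (by positivity)]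

theorem ratio_le (N : ℕ) (z : ℂ) : ‖z‖ ^ (2 * N) ≤ 2 * (‖ww N z‖ ^ 2 + 1) ^ 2 := by
  set W := ‖ww N z‖ with hW
  have hW0 : 0 ≤ W := norm_nonneg _
  rcases le_total ‖z‖ 1 with h | h
  · have : ‖z‖ ^ (2 * N) ≤ 1 := pow_le_one₀ (norm_nonneg _) h
    nlinarith [sq_nonneg W, sq_nonneg (W ^ 2)]
  · have h1 : ‖z‖ ^ (2 * N) ≤ ‖z‖ ^ (2 * (N + 1)) := pow_le_pow_right₀ h (by omega)
    have h2 : ‖z‖ ^ (N + 1) ≤ W + 1 := by
      rw [← norm_pow]
      have : z ^ (N + 1) = ww N z - 1 := by unfold ww; ring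
      rw [this]
      calc ‖ww N z - 1‖ ≤ ‖ww N z‖ + ‖(1:ℂ)‖ := norm_sub_le _ _
        _ = W + 1 := by rw [norm_one]
    have h3 : ‖z‖ ^ (2 * (N + 1)) = (‖z‖ ^ (N + 1)) ^ 2 := by rw [← pow_mul, mul_comm]
    have h4 : (‖z‖ ^ (N + 1)) ^ 2 ≤ (W + 1) ^ 2 := by
      apply pow_le_pow_left₀ (by positivity) h2
    nlinarith [sq_nonneg (W - 1), sq_nonneg (W ^ 2), sq_nonneg W]

theorem exp_uu_le (N : ℕ) (z : ℂ) (hz : z ≠ 0) : Real.exp (uu N z) ≤ 1 / 4 := by
  rw [exp_uu N z hz, div_le_div_iff₀ (by positivity) (by norm_num)]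
  linarith [ratio_le N z]

theorem rhs_eq (N : ℕ) (z : ℂ) (hz : z ≠ 0) :
    64 * ((N : ℝ) + 1) ^ 2 * qq (Real.exp (uu N z)) = -(Δ (vv N)) z := by
  rw [qq_of_le (by linarith [exp_uu_le N z hz]), exp_uu N z hz, lap_vv]
  field_simp
  ring

theorem ae_ne_zero : ∀ᵐ z : ℂ, z ≠ 0 := by
  rw [ae_iff]; simp

theorem lap_vv_cont (N : ℕ) : Continuous (Δ (vv N)) := by
  have : (Δ (vv N)) = fun z => fderiv ℝ (fderiv ℝ (vv N)) z 1 1 +
    fderiv ℝ (fderiv ℝ (vv N)) z Complex.I Complex.I := by funext z; exact Q61.lap_plane _ z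
  rw [this]
  exact (Q61.continuous_fderiv2 (vv_contDiff N) 1 1).add (Q61.continuous_fderiv2 (vv_contDiff N) _ _)

theorem uu_locInt (N : ℕ) : LocallyIntegrable (uu N) := by
  unfold uu
  apply LocallyIntegrable.add
  · intro z
    have h1 : IntegrableOn (fun z : ℂ => Real.log ‖z‖) (Metric.ball 0 (‖z‖ + 1)) :=
      Q61.integrableOn_log_norm _
    refine ⟨Metric.ball 0 (‖z‖ + 1), Metric.isOpen_ball.mem_nhds (by simp), ?_⟩
    exact h1.const_mul _
  · exact (vv_contDiff N (n := 0)).continuous.locallyIntegrable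

theorem negSol (N : ℕ) : NegSol N (fun _ => 64 * ((N : ℝ) + 1) ^ 2) qq (uu N) where
  smooth := by
    unfold uu
    apply ContDiffOn.add
    · apply ContDiffOn.mul contDiffOn_const
      intro z hz
      have hz' : z ≠ 0 := hz
      exact ((contDiffAt_norm ℝ hz').log (norm_ne_zero_iff.2 hz')).contDiffWithinAt
    · exact (vv_contDiff N).contDiffOn
  locInt := uu_locInt N
  locInt' := by
    have h1 : LocallyIntegrable (fun z => -(Δ (vv N)) z) :=
      (lap_vv_cont N).neg.locallyIntegrable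
    refine h1.congr ?_
    filter_upwards [ae_ne_zero] with z hz
    exact (rhs_eq N z hz).symm
  eqn := by
    intro φ hφ hc
    have hφ2 : ContDiff ℝ 2 φ := hφ.of_le ENat.LEInfty.out
    have h1 := Q61.log_fund hφ2 hc
    have h2 := Q61.green_plane (f := vv N) (φ := φ) (fun x _ => (vv_contDiff N).contDiffAt) hφ2 hc
    have hΔc : Continuous (Δ φ) := by
      have : (Δ φ) = fun z => fderiv ℝ (fderiv ℝ φ) z 1 1 +
        fderiv ℝ (fderiv ℝ φ) z Complex.I Complex.I := by funext z; exact Q61.lap_plane φ z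
      rw [this]
      exact (Q61.continuous_fderiv2 hφ2 1 1).add (Q61.continuous_fderiv2 hφ2 _ _)
    have hΔs : HasCompactSupport (Δ φ) := by
      have : (Δ φ) = (fun z => fderiv ℝ (fderiv ℝ φ) z 1 1) +
        (fun z => fderiv ℝ (fderiv ℝ φ) z Complex.I Complex.I) := by
        funext z; exact Q61.lap_plane φ z
      rw [this]
      exact (Q61.hasCompactSupport_fderiv2 hc 1 1).add (Q61.hasCompactSupport_fderiv2 hc _ _)
    have h3 : ∫ z, uu N z * (Δ φ) z = 2 * N * (∫ z : ℂ, Real.log ‖z‖ * (Δ φ) z) +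
        ∫ z, vv N z * (Δ φ) z := by
      rw [← integral_const_mul, ← integral_add]
      · congr 1; funext z; unfold uu; ring
      · exact (Q61.integrable_log_norm_mul hΔc hΔs).const_mul _
      · apply Continuous.integrable_of_hasCompactSupport
        · exact (vv_contDiff N (n := 0)).continuous.mul hΔc
        · exact hΔs.mul_left
    have h4 : ∫ z, 64 * ((N : ℝ) + 1) ^ 2 * qq (Real.exp (uu N z)) * φ z =
        ∫ z, -((Δ (vv N)) z * φ z) := by
      apply integral_congr_ae
      filter_upwards [ae_ne_zero] with z hz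
      rw [rhs_eq N z hz]; ring
    rw [h3, h1, h2, h4, integral_neg]
    ring
  neg := by
    intro z hz
    have h1 := exp_uu_le N z hz
    have h2 : Real.exp (uu N z) < Real.exp 0 := by rw [Real.exp_zero]; linarith
    exact Real.exp_lt_exp.1 h2

theorem uu_le (N : ℕ) (z : ℂ) : uu N z ≤ 2 * N * Real.log ‖z‖ := by
  unfold uu vv
  have h1 : 0 ≤ Real.log 8 := Real.log_nonneg (by norm_num)
  have h2 : 0 ≤ Real.log (‖ww N z‖ ^ 2 + 1) := Real.log_nonneg (by nlinarith [sq_nonneg ‖ww N z‖])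
  nlinarith

theorem not_radial (N : ℕ) (hN : 1 ≤ N) (a : ℂ) : ¬ RadialAbout a (uu N) := by
  intro h
  by_cases ha : a = 0
  · subst ha
    -- compare `1` with `exp(i π/(N+1))`
    set ζ : ℂ := Complex.exp ((Real.pi / (N + 1) : ℝ) * Complex.I) with hζ
    have hζn : ‖ζ‖ = 1 := Complex.norm_exp_ofReal_mul_I _
    have hζp : ζ ^ (N + 1) = -1 := by
      rw [hζ, ← Complex.exp_nat_mul]
      have : ((N + 1 : ℕ) : ℂ) * (((Real.pi / (N + 1) : ℝ) : ℂ) * Complex.I) =
          Real.pi * Complex.I := by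
        push_cast
        have : (N : ℂ) + 1 ≠ 0 := by exact_mod_cast Nat.succ_ne_zero N
        field_simp
      rw [this, Complex.exp_pi_mul_I]
    have hζ0 : ζ ≠ 0 := by
      intro h0; rw [h0, norm_zero] at hζn; norm_num at hζn
    have h1 := h 1 ζ one_ne_zero hζ0 (by simp [hζn])
    have h2 : Real.exp (uu N 1) = Real.exp (uu N ζ) := by rw [h1]
    rw [exp_uu N 1 one_ne_zero, exp_uu N ζ hζ0] at h2
    have w1 : ww N 1 = 2 := by unfold ww; norm_num
    have w2 : ww N ζ = 0 := by unfold ww; rw [hζp]; ring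
    rw [w1, w2, hζn] at h2
    norm_num at h2
  · -- the singularity at the origin propagates to the whole circle
    have ha' : 0 < ‖a‖ := norm_pos_iff.2 ha
    have h2a : (2 : ℂ) * a ≠ 0 := mul_ne_zero two_ne_zero ha
    set m := uu N (2 * a) with hm
    set r : ℝ := Real.exp (-|m| - 1) with hr
    have hr0 : 0 < r := Real.exp_pos _
    -- the angle
    have hcont : Tendsto (fun t : ℝ => a * (1 - Complex.exp (t * Complex.I))) (𝓝[≠] 0) (𝓝 0) := by
      have hc : Continuous (fun t : ℝ => a * (1 - Complex.exp (t * Complex.I))) := by fun_prop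
      have := hc.tendsto 0
      simp at this
      exact this.mono_left nhdsWithin_le_nhds
    have hev : ∀ᶠ t : ℝ in 𝓝[≠] 0, ‖a * (1 - Complex.exp (t * Complex.I))‖ < r := by
      have := hcont.norm
      rw [norm_zero] at this
      exact this.eventually (gt_mem_nhds hr0)
    have hev2 : ∀ᶠ t : ℝ in 𝓝[≠] 0, t ∈ Ioo (-1:ℝ) 1 :=
      nhdsWithin_le_nhds (Ioo_mem_nhds (by norm_num) (by norm_num))
    have hev3 : ∀ᶠ t : ℝ in 𝓝[≠] 0, t ≠ 0 := eventually_mem_nhdsWithin
    obtain ⟨t, ht1, ht2, ht3⟩ := (hev.and (hev2.and hev3)).exists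
    set z : ℂ := a * (1 - Complex.exp (t * Complex.I)) with hz
    have hz0 : z ≠ 0 := by
      rw [hz]
      apply mul_ne_zero ha
      intro h0
      have h1 : Complex.exp (t * Complex.I) = 1 := by
        have := sub_eq_zero.1 h0; exact this.symm
      have h2 := congrArg Complex.im h1
      rw [Complex.exp_ofReal_mul_I_im] at h2
      simp only [Complex.one_im] at h2
      have hpi : (3:ℝ) < Real.pi := Real.pi_gt_three
      rcases lt_or_gt_of_ne ht3 with h3 | h3
      · have := Real.sin_neg_of_neg_of_neg_pi_lt h3 (by linarith [ht2.1])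
        linarith
      · have := Real.sin_pos_of_pos_of_lt_pi h3 (by linarith [ht2.2])
        linarith
    have hd : ‖z - a‖ = ‖2 * a - a‖ := by
      have e1 : z - a = -(a * Complex.exp (t * Complex.I)) := by rw [hz]; ring
      rw [e1, norm_neg, norm_mul, Complex.norm_exp_ofReal_mul_I, mul_one]
      congr 1; ring
    have h3 := h z (2 * a) hz0 h2a hd
    have h4 := uu_le N z
    rw [h3, ← hm] at h4
    have h5 : Real.log ‖z‖ ≤ -|m| - 1 := by
      rw [← Real.log_exp (-|m| - 1)]
      exact Real.log_le_log (norm_pos_iff.2 hz0) ht1.le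
    have hN' : (1:ℝ) ≤ N := by exact_mod_cast hN
    have h6 := abs_nonneg m
    have h7 := neg_abs_le m
    nlinarith

/-- **Disproof.** For every integer `N ≥ 1` there are `p, q` such that `f, g` satisfy (H1)-(H8)
and a negative solution of `Δu + p(|x|) q(e^u) = 4πN δ` in the plane that is not radially
symmetric, neither about the origin nor about any other point. -/
theorem result (N : ℕ) (hN : 1 ≤ N) :
    ∃ p q : ℝ → ℝ, Hyps (fOf p) (gOf q) ∧
      ∃ u : ℂ → ℝ, NegSol N p q u ∧ ∀ a : ℂ, ¬ RadialAbout a u :=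
  ⟨fun _ => 64 * ((N : ℝ) + 1) ^ 2, qq, hyps _ (by positivity), uu N, negSol N,
    fun a => not_radial N hN a⟩

end Pool.Agent.Results.MP_ad2fa1_an.NonradialAllN
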